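import Mathlib

open Polynomial

namespace Pool.Agent.Results.MP_46a474_nt.AllReducible

set_option linter.style.haveILetI false

/-- The polynomial `a^9 X^9 + X^3 + a X + c` over a finite field of characteristic 3
with `a ≠ 0` is never irreducible. -/
theorem key (F : Type) [Field F] [Fintype F] [CharP F 3] (a c : F) (ha : a ≠ 0) :
    ¬ Irreducible (C (a ^ 9) * X ^ 9 + X ^ 3 + C a * X + C c : F[X]) := by
  classical
  intro hirr
  set g : F[X] := C (a ^ 9) * X ^ 9 + X ^ 3 + C a * X + C c with hg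
  haveI : Fact (Nat.Prime 3) := ⟨Nat.prime_three⟩
  haveI : Fact (Irreducible g) := ⟨hirr⟩
  have ha9 : a ^ 9 ≠ 0 := pow_ne_zero _ ha
  have hdeg : g.natDegree = 9 := by
    rw [hg]; compute_degree!
  let K := AdjoinRoot g
  letI : Field K := inferInstance
  have hfr : Module.finrank F K = 9 := by
    rw [← hdeg]
    exact (AdjoinRoot.powerBasis hirr.ne_zero).finrank.trans (AdjoinRoot.powerBasis_dim hirr.ne_zero)
  haveI : FiniteDimensional F K := Module.finite_of_finrank_pos (by rw [hfr]; norm_num)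
  haveI : Finite K := Module.finite_of_finite F
  haveI : CharP K 3 := charP_of_injective_algebraMap (algebraMap F K).injective 3
  letI : Algebra (ZMod 3) K := ZMod.algebra K 3
  let θ : K := AdjoinRoot.root g
  let φ : K →ₐ[F] K := FiniteField.frobeniusAlgHom F K
  have hord : orderOf φ = 9 := by
    rw [← hfr]; exact FiniteField.orderOf_frobeniusAlgHom F K
  -- φ as ZMod 3 linear map
  let P : Module.End (ZMod 3) K := AddMonoidHom.toZModLinearMap 3 (φ : K →+ K)
  have hP : ∀ x, P x = φ x := fun x => rfl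
  have hPpow : ∀ (n : ℕ) (x : K), (P ^ n) x = (φ ^ n) x := by
    intro n
    induction n with
    | zero => intro x; simp
    | succ n ih => intro x; rw [pow_succ, pow_succ]; simp only [Module.End.mul_apply, AlgHom.mul_apply]; rw [ih, hP]
  let L : K →ₗ[ZMod 3] K := AddMonoidHom.toZModLinearMap 3
    { toFun := fun x => (algebraMap F K a) ^ 9 * x ^ 9 + x ^ 3 + algebraMap F K a * x
      map_zero' := by simp
      map_add' := by
        intro x y
        have h3 : (x + y) ^ 3 = x ^ 3 + y ^ 3 := add_pow_char x y 3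
        have h9 : (x + y) ^ 9 = x ^ 9 + y ^ 9 := by
          have : (x + y) ^ 3 ^ 2 = x ^ 3 ^ 2 + y ^ 3 ^ 2 := add_pow_char_pow x y 3 2
          simpa using this
        rw [h3, h9]; ring }
  have hL : ∀ x, L x = (algebraMap F K a) ^ 9 * x ^ 9 + x ^ 3 + algebraMap F K a * x := fun x => rfl
  have hLg : ∀ x : K, aeval x g = L x + algebraMap F K c := by
    intro x
    rw [hL]
    have hg' : aeval x g = aeval x (C (a ^ 9) * X ^ 9 + X ^ 3 + C a * X + C c : F[X]) := rfl
    rw [hg']
    simp
  have hθ : L θ = - algebraMap F K c := by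
    have h : aeval θ g = 0 := AdjoinRoot.eval₂_root g
    rw [hLg] at h
    exact eq_neg_of_add_eq_zero_left h
  have hLφ : ∀ x, L (φ x) = φ (L x) := by
    intro x
    rw [hL, hL]
    simp [map_add, map_mul, map_pow]
  let D : Module.End (ZMod 3) K := P - 1
  have hD : ∀ x, D x = φ x - x := fun x => rfl
  have hLD : ∀ x, L (D x) = D (L x) := by
    intro x
    rw [hD, hD, map_sub, hLφ]
  have hLDθ : L (D θ) = 0 := by
    rw [hLD, hθ, hD, map_neg, AlgHom.commutes, sub_self]
  let W : Submodule (ZMod 3) K := LinearMap.ker L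
  have hDW : ∀ x ∈ W, D x ∈ W := by
    intro x hx
    rw [LinearMap.mem_ker] at hx ⊢
    rw [hLD, hx, map_zero]
  haveI : CharP (Module.End (ZMod 3) K) 3 :=
    charP_of_injective_algebraMap (algebraMap (ZMod 3) (Module.End (ZMod 3) K)).injective 3
  have hD9 : D ^ 9 = 0 := by
    have h1 : (P - 1) ^ 3 ^ 2 = P ^ 3 ^ 2 - 1 ^ 3 ^ 2 :=
      sub_pow_char_pow_of_commute (p := 3) (n := 2) (Commute.one_right P)
    have h2 : P ^ 9 = 1 := by
      ext x
      rw [hPpow, ← hord, pow_orderOf_eq_one]
      rfl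
    have h3 : (P - 1) ^ 9 = P ^ 9 - 1 ^ 9 := by simpa using h1
    show (P - 1) ^ 9 = 0
    rw [h3, h2]; simp
  have hD3 : D ^ 3 = P ^ 3 - 1 := by
    have h1 : (P - 1) ^ 3 ^ 1 = P ^ 3 ^ 1 - 1 ^ 3 ^ 1 :=
      sub_pow_char_pow_of_commute (p := 3) (n := 1) (Commute.one_right P)
    simpa using h1
  -- cardinality of W
  have hWcard : Nat.card W ≤ 9 := by
    let G : K[X] := C ((algebraMap F K a) ^ 9) * X ^ 9 + X ^ 3 + C (algebraMap F K a) * X
    have hGdeg : G.natDegree = 9 := by
      have : (algebraMap F K a) ^ 9 ≠ 0 := by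
        rw [← map_pow]
        exact (_root_.map_ne_zero _).mpr ha9
      show (C ((algebraMap F K a) ^ 9) * X ^ 9 + X ^ 3 + C (algebraMap F K a) * X).natDegree = 9
      compute_degree!
    have hG0 : G ≠ 0 := by
      intro h; rw [h] at hGdeg; simp at hGdeg
    have hsub : (W : Set K) ⊆ (G.roots.toFinset : Set K) := by
      intro x hx
      simp only [Finset.mem_coe, Multiset.mem_toFinset, mem_roots hG0, IsRoot.def]
      have : L x = 0 := hx
      rw [hL] at this
      simpa [G] using this
    calc Nat.card W = Nat.card (W : Set K) := rfl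
      _ ≤ Nat.card (G.roots.toFinset : Set K) := Nat.card_mono (Set.toFinite _) hsub
      _ = G.roots.toFinset.card := by
          rw [Nat.card_coe_set_eq, Set.ncard_coe_finset]
      _ ≤ Multiset.card G.roots := Multiset.toFinset_card_le _
      _ ≤ 9 := by rw [← hGdeg]; exact card_roots' G
  have hWfr : Module.finrank (ZMod 3) W ≤ 2 := by
    have h1 : Nat.card W = 3 ^ Module.finrank (ZMod 3) W := by
      rw [Module.natCard_eq_pow_finrank (K := ZMod 3)]
      simp
    rw [h1] at hWcard
    by_contra hcon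
    push Not at hcon
    have : 3 ^ 3 ≤ 3 ^ Module.finrank (ZMod 3) W := Nat.pow_le_pow_right (by norm_num) hcon
    omega
  let DW : Module.End (ZMod 3) W := D.restrict hDW
  have hDWpow : ∀ (n : ℕ) (x : W), ((DW ^ n) x : K) = (D ^ n) x := by
    intro n x
    have h := Module.End.pow_restrict (f' := D) n hDW
    rw [show DW = D.restrict hDW from rfl, h]
    rfl
  have hDW2 : DW ^ 2 = 0 := by
    have h9 : DW ^ 9 = 0 := by
      ext x
      rw [hDWpow, hD9]; rfl
    have h9' : LinearMap.ker (DW ^ 2) = ⊤ := by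
      have e1 := Module.End.ker_pow_eq_ker_pow_finrank_of_le (f := DW) (m := 9) (by omega)
      have e2 := Module.End.ker_pow_eq_ker_pow_finrank_of_le (f := DW) (m := 2) hWfr
      rw [e2, ← e1, h9]
      exact LinearMap.ker_zero
    exact LinearMap.ker_eq_top.mp h9'
  have hfin : (D ^ 3) θ = 0 := by
    have h1 : (D ^ 3) θ = (D ^ 2) (D θ) := by
      rw [pow_succ]; rfl
    rw [h1]
    have := hDWpow 2 ⟨D θ, hLDθ⟩
    rw [hDW2] at this
    simpa using this.symm
  have hφ3 : (φ ^ 3) θ = θ := by
    rw [← hPpow]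
    rw [hD3] at hfin
    exact sub_eq_zero.mp hfin
  have hφ3' : φ ^ 3 = 1 := by
    apply AdjoinRoot.algHom_ext
    exact hφ3
  have : orderOf φ ∣ 3 := orderOf_dvd_of_pow_eq_one hφ3'
  rw [hord] at this
  norm_num at this

theorem irr (F : Type) [Field F] :
    Irreducible (MvPolynomial.X 1 ^ 3 + MvPolynomial.X 0 ^ 9 + MvPolynomial.X 0 :
      MvPolynomial (Fin 2) F) := by
  classical
  let e := (MvPolynomial.renameEquiv F (Equiv.swap (0 : Fin 2) 1)).trans
    (MvPolynomial.finSuccEquiv F 1)
  have he : e (MvPolynomial.X 1 ^ 3 + MvPolynomial.X 0 ^ 9 + MvPolynomial.X 0) =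
      (X ^ 3 + C (MvPolynomial.X 0 ^ 9 + MvPolynomial.X 0) : (MvPolynomial (Fin 1) F)[X]) := by
    have h1 : e (MvPolynomial.X 1) = X := by
      simp only [e, AlgEquiv.trans_apply, MvPolynomial.renameEquiv_apply, MvPolynomial.rename_X,
        Equiv.swap_apply_right, MvPolynomial.finSuccEquiv_X_zero]
    have h0 : e (MvPolynomial.X 0) = C (MvPolynomial.X 0) := by
      simp only [e, AlgEquiv.trans_apply, MvPolynomial.renameEquiv_apply, MvPolynomial.rename_X,
        Equiv.swap_apply_left]
      exact MvPolynomial.finSuccEquiv_X_succ (j := (0 : Fin 1))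
    rw [map_add, map_add, map_pow, map_pow, h1, h0, C_add, C_pow, add_assoc]
  rw [← MulEquiv.irreducible_iff e, he]
  have hx : Prime (MvPolynomial.X 0 : MvPolynomial (Fin 1) F) := MvPolynomial.X_prime
  set c : MvPolynomial (Fin 1) F := MvPolynomial.X 0 ^ 9 + MvPolynomial.X 0 with hc
  have hmon : (X ^ 3 + C c : (MvPolynomial (Fin 1) F)[X]).Monic := by
    monicity!
  have hdeg : (X ^ 3 + C c : (MvPolynomial (Fin 1) F)[X]).degree = 3 := by
    compute_degree!
  apply Polynomial.irreducible_of_eisenstein_criterion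
    (P := Ideal.span {(MvPolynomial.X 0 : MvPolynomial (Fin 1) F)})
  · exact (Ideal.span_singleton_prime hx.ne_zero).mpr hx
  · rw [hmon.leadingCoeff, Ideal.mem_span_singleton]
    intro h
    exact hx.not_isUnit (isUnit_of_dvd_one h)
  · intro n hn
    rw [hdeg] at hn
    have hn3 : n < 3 := by exact_mod_cast hn
    rw [coeff_add, coeff_X_pow, if_neg (by omega), zero_add, coeff_C]
    split_ifs
    · rw [Ideal.mem_span_singleton, hc]
      exact ⟨MvPolynomial.X 0 ^ 8 + 1, by ring⟩
    · exact Ideal.zero_mem _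
  · rw [hdeg]; norm_num
  · rw [coeff_add, coeff_X_pow, if_neg (by norm_num), zero_add, coeff_C, if_pos rfl,
      Ideal.span_singleton_pow, Ideal.mem_span_singleton, hc]
    rintro ⟨t, ht⟩
    have h2 : (MvPolynomial.X 0 : MvPolynomial (Fin 1) F) * (MvPolynomial.X 0 ^ 8 + 1) =
        MvPolynomial.X 0 * (MvPolynomial.X 0 * t) := by
      linear_combination ht
    have h3 := mul_left_cancel₀ hx.ne_zero h2
    apply hx.not_isUnit
    apply isUnit_of_dvd_one
    exact ⟨t - MvPolynomial.X 0 ^ 7, by linear_combination h3⟩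
  · exact hmon.isPrimitive

theorem totdeg (F : Type) [Field F] :
    (MvPolynomial.X 1 ^ 3 + MvPolynomial.X 0 ^ 9 + MvPolynomial.X 0 :
      MvPolynomial (Fin 2) F).totalDegree = 9 := by
  have h : (MvPolynomial.X 1 ^ 3 + MvPolynomial.X 0 ^ 9 + MvPolynomial.X 0 :
      MvPolynomial (Fin 2) F) = MvPolynomial.X 0 ^ 9 + (MvPolynomial.X 1 ^ 3 + MvPolynomial.X 0) := by
    ring
  rw [h, MvPolynomial.totalDegree_add_eq_left_of_totalDegree_lt, MvPolynomial.totalDegree_X_pow]
  rw [MvPolynomial.totalDegree_X_pow]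
  refine lt_of_le_of_lt (MvPolynomial.totalDegree_add _ _) ?_
  rw [MvPolynomial.totalDegree_X_pow, MvPolynomial.totalDegree_X]
  norm_num

/-- For every bound `M` there are a finite field `F` with more than `M` elements and an
irreducible bivariate polynomial `f` over `F` of total degree `9`, such that no substitution
`X ↦ a Y + b` with `a, b ∈ F` makes `f` irreducible. -/
theorem result : ∀ M : ℕ, ∃ (F : Type) (_ : Field F) (_ : Fintype F)
    (f : MvPolynomial (Fin 2) F),
    M < Fintype.card F ∧ Irreducible f ∧ f.totalDegree = 9 ∧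
      ∀ a b : F, ¬ Irreducible
        (MvPolynomial.aeval ![Polynomial.C a * Polynomial.X + Polynomial.C b, Polynomial.X] f :
          Polynomial F) := by
  intro M
  haveI : Fact (Nat.Prime 3) := ⟨Nat.prime_three⟩
  let F := GaloisField 3 (M + 1)
  haveI : CharP F 3 := inferInstance
  haveI : ExpChar F 3 := inferInstance
  letI : Fintype F := Fintype.ofFinite F
  refine ⟨F, inferInstance, inferInstance,
    MvPolynomial.X 1 ^ 3 + MvPolynomial.X 0 ^ 9 + MvPolynomial.X 0, ?_, irr F, totdeg F, ?_⟩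
  · have h1 : Nat.card F = 3 ^ (M + 1) := GaloisField.card 3 (M + 1) (by omega)
    rw [Nat.card_eq_fintype_card] at h1
    rw [h1]
    calc M < M + 1 := Nat.lt_succ_self M
      _ < 3 ^ (M + 1) := Nat.lt_pow_self (by norm_num)
  · intro a b
    have hsub : (MvPolynomial.aeval ![C a * X + C b, X]
        (MvPolynomial.X 1 ^ 3 + MvPolynomial.X 0 ^ 9 + MvPolynomial.X 0 : MvPolynomial (Fin 2) F) :
        F[X]) = X ^ 3 + (C a * X + C b) ^ 9 + (C a * X + C b) := by
      simp
    rw [hsub]
    have h9 : (C a * X + C b : F[X]) ^ 9 = C (a ^ 9) * X ^ 9 + C (b ^ 9) := by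
      have : (C a * X + C b : F[X]) ^ 3 ^ 2 = (C a * X) ^ 3 ^ 2 + (C b) ^ 3 ^ 2 :=
        add_pow_char_pow _ _ 3 2
      norm_num at this
      rw [this, mul_pow, C_pow, C_pow]
    rw [h9]
    by_cases ha : a = 0
    · subst ha
      have hinj : Function.Injective (fun x : F => x ^ 3) := by
        intro x y hxy
        have hxy' : x ^ 3 = y ^ 3 := hxy
        have h1 : (x - y) ^ 3 = 0 := by
          rw [sub_pow_char (p := 3) x y, hxy', sub_self]
        have h2 : x - y = 0 := by
          by_contra hne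
          exact pow_ne_zero 3 hne h1
        exact sub_eq_zero.mp h2
      obtain ⟨c, hc⟩ := (Finite.injective_iff_surjective.mp hinj) (b ^ 9 + b)
      have hc' : c ^ 3 = b ^ 9 + b := hc
      have h3 : (X ^ 3 + (C (0 ^ 9) * X ^ 9 + C (b ^ 9)) + (C 0 * X + C b) : F[X]) =
          (X + C c) ^ 3 := by
        rw [add_pow_char X (C c) 3, ← C_pow, hc', C_add]
        simp only [ne_eq, OfNat.ofNat_ne_zero, not_false_eq_true, zero_pow, map_zero, zero_mul,
          zero_add]
        ring
      rw [h3]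
      exact not_irreducible_pow (by norm_num)
    · have h := key F a (b ^ 9 + b) ha
      have h2 : (X ^ 3 + (C (a ^ 9) * X ^ 9 + C (b ^ 9)) + (C a * X + C b) : F[X]) =
          C (a ^ 9) * X ^ 9 + X ^ 3 + C a * X + C (b ^ 9 + b) := by
        rw [C_add]; ring
      rw [h2]
      exact h

end Pool.Agent.Results.MP_46a474_nt.AllReducible
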